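import Mathlib
import Pool.Agent.H376R3.PC.Defs

/-!
# Task PC1: pseudocompact abelian groups are `G_delta`-dense in a compact group
-/

set_option autoImplicit false

universe u

namespace Pool.Agent.H990R4.PC1

open Topology Set Pool.Agent.H376R3.PC

/-- In a completely regular pseudocompact space the closures of a decreasing sequence of nonempty
open sets have a common point. -/
theorem inter_closure {X : Type*} [TopologicalSpace X] [CompletelyRegularSpace X]
    (hX : ∀ f : X → ℝ, Continuous f → ∃ C : ℝ, ∀ x, |f x| ≤ C) (O : ℕ → Set X)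
    (hO : ∀ n, IsOpen (O n)) (hne : ∀ n, (O n).Nonempty) (hanti : Antitone O) :
    ∃ x, ∀ n, x ∈ closure (O n) := by
  by_contra hcon
  push Not at hcon
  have hlf : LocallyFinite O := by
    intro x
    obtain ⟨n, hn⟩ := hcon x
    refine ⟨(closure (O n))ᶜ, isClosed_closure.isOpen_compl.mem_nhds hn, ?_⟩
    refine (Set.finite_lt_nat n).subset ?_
    rintro m ⟨y, hy1, hy2⟩
    by_contra hnm
    have : n ≤ m := not_lt.1 hnm
    exact hy2 (subset_closure (hanti this hy1))
  choose x hx using hne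
  have h1 : ∀ n, ∃ f : X → unitInterval, Continuous f ∧ f (x n) = 0 ∧
      Set.EqOn f 1 (O n)ᶜ := fun n =>
    CompletelyRegularSpace.completely_regular (x n) (O n)ᶜ (hO n).isClosed_compl
      (fun h => h (hx n))
  choose f hfc hf0 hf1 using h1
  set g : ℕ → X → ℝ := fun n y => n * (1 - (f n y : ℝ)) with hg
  have hgc : ∀ n, Continuous (g n) := fun n =>
    continuous_const.mul (continuous_const.sub (continuous_subtype_val.comp (hfc n)))
  have hg0 : ∀ n y, 0 ≤ g n y := by
    intro n y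
    have h2 : ((f n y : unitInterval) : ℝ) ≤ 1 := (f n y).2.2
    exact mul_nonneg (Nat.cast_nonneg n) (by linarith)
  have hgs : ∀ n, Function.support (g n) ⊆ O n := by
    intro n y hy
    by_contra hyO
    apply hy
    have h3 : f n y = 1 := hf1 n hyO
    simp only [hg, h3]
    simp
  have hglf : LocallyFinite fun n => Function.support (g n) := hlf.subset hgs
  obtain ⟨C, hC⟩ := hX (fun y => ∑ᶠ n, g n y) (continuous_finsum hgc hglf)
  obtain ⟨n, hn⟩ := exists_nat_gt C
  have h4 : g n (x n) ≤ ∑ᶠ m, g m (x n) := by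
    refine single_le_finsum (f := fun m => g m (x n)) n ?_ ?_
    · exact hglf.point_finite (x n)
    · intro j
      exact hg0 j (x n)
  have h5 : g n (x n) = n := by
    simp only [hg, hf0 n]
    simp
  have h6 := hC (x n)
  have h7 := le_abs_self (∑ᶠ m, g m (x n))
  rw [h5] at h4
  linarith

/-- A pseudocompact group is totally bounded. -/
theorem exists_cover {G : Type*} [AddCommGroup G] [TopologicalSpace G] [IsTopologicalAddGroup G]
    (hX : ∀ f : G → ℝ, Continuous f → ∃ C : ℝ, ∀ x, |f x| ≤ C) (U : Set G) (hU : U ∈ 𝓝 (0 : G)) :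
    ∃ t : Set G, t.Finite ∧ ∀ x : G, ∃ y ∈ t, x - y ∈ U := by
  let _ : UniformSpace G := IsTopologicalAddGroup.rightUniformSpace G
  have : CompletelyRegularSpace G := UniformSpace.toCompletelyRegularSpace
  by_contra hcon
  push Not at hcon
  -- a sequence with `x n - x m ∉ U` for `m < n`
  have h1 : ∀ t : Finset G, ∃ x : G, ∀ y ∈ t, x - y ∉ U := by
    intro t
    obtain ⟨x, hx⟩ := hcon t t.finite_toSet
    exact ⟨x, fun y hy => hx y hy⟩
  obtain ⟨x, hx⟩ : ∃ x : ℕ → G, ∀ m n, m < n → x n - x m ∉ U := by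
    obtain ⟨x, hx⟩ := exists_seq_of_forall_finset_exists (fun _ : G => True)
      (fun a b => b - a ∉ U) (by
        intro s _
        obtain ⟨y, hy⟩ := h1 s
        exact ⟨y, trivial, hy⟩)
    exact ⟨x, fun m n hmn => hx.2 m n hmn⟩
  -- a small neighbourhood
  obtain ⟨V, hVo, hV0, hV⟩ : ∃ V : Set G, IsOpen V ∧ (0 : G) ∈ V ∧
      ∀ a ∈ V, ∀ b ∈ V, ∀ c ∈ V, ∀ d ∈ V, a - b + (c - d) ∈ U := by
    have hc : Continuous fun p : (G × G) × (G × G) => p.1.1 - p.1.2 + (p.2.1 - p.2.2) := by
      fun_prop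
    have h0 : (fun p : (G × G) × (G × G) => p.1.1 - p.1.2 + (p.2.1 - p.2.2)) ⁻¹' U ∈
        𝓝 (((0 : G), (0 : G)), ((0 : G), (0 : G))) := by
      apply hc.continuousAt.preimage_mem_nhds
      simpa using hU
    rw [nhds_prod_eq, nhds_prod_eq] at h0
    obtain ⟨A, hA, B, hB, hAB⟩ := Filter.mem_prod_iff.1 h0
    obtain ⟨A1, hA1, A2, hA2, hA12⟩ := Filter.mem_prod_iff.1 hA
    obtain ⟨B1, hB1, B2, hB2, hB12⟩ := Filter.mem_prod_iff.1 hB
    refine ⟨interior (A1 ∩ A2 ∩ (B1 ∩ B2)), isOpen_interior, ?_, ?_⟩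
    · rw [mem_interior_iff_mem_nhds]
      exact Filter.inter_mem (Filter.inter_mem hA1 hA2) (Filter.inter_mem hB1 hB2)
    · intro a ha b hb c hc d hd
      have ha' := interior_subset ha
      have hb' := interior_subset hb
      have hc' := interior_subset hc
      have hd' := interior_subset hd
      have : ((a, b), (c, d)) ∈ A ×ˢ B :=
        ⟨hA12 ⟨ha'.1.1, hb'.1.2⟩, hB12 ⟨hc'.2.1, hd'.2.2⟩⟩
      exact hAB this
  -- the open sets
  set O : ℕ → Set G := fun k => ⋃ n ≥ k, (fun v => x n + v) '' V with hOdef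
  have hO : ∀ k, IsOpen (O k) := by
    intro k
    refine isOpen_iUnion fun n => isOpen_iUnion fun _ => ?_
    exact (Homeomorph.addLeft (x n)).isOpenMap V hVo
  have hne : ∀ k, (O k).Nonempty := by
    intro k
    refine ⟨x k + 0, ?_⟩
    exact mem_iUnion₂.2 ⟨k, le_refl k, ⟨0, hV0, rfl⟩⟩
  have hanti : Antitone O := by
    intro k l hkl y hy
    obtain ⟨n, hn, h⟩ := mem_iUnion₂.1 hy
    exact mem_iUnion₂.2 ⟨n, le_trans hkl hn, h⟩
  obtain ⟨y, hy⟩ := inter_closure hX O hO hne hanti
  have hyn : (fun v => y + v) '' V ∈ 𝓝 y := by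
    apply ((Homeomorph.addLeft y).isOpenMap V hVo).mem_nhds
    exact ⟨0, hV0, add_zero y⟩
  have h2 : ∀ k, ∃ n ≥ k, ∃ v ∈ V, ∃ w ∈ V, y + v = x n + w := by
    intro k
    obtain ⟨z, hz1, hz2⟩ := mem_closure_iff_nhds.1 (hy k) _ hyn
    obtain ⟨v, hv, rfl⟩ := hz1
    obtain ⟨n, hn, w, hw, hw2⟩ := mem_iUnion₂.1 hz2
    exact ⟨n, hn, v, hv, w, hw, hw2.symm⟩
  obtain ⟨m, -, v, hv, w, hw, h3⟩ := h2 0
  obtain ⟨n, hn, v', hv', w', hw', h4⟩ := h2 (m + 1)
  apply hx m n (by omega)
  have h5 : x n - x m = v' - w' + (w - v) := by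
    have e1 : x n = y + v' - w' := by rw [h4]; abel
    have e2 : x m = y + v - w := by rw [h3]; abel
    rw [e1, e2]
    abel
  rw [h5]
  exact hV v' hv' w' hw' w hw v hv

theorem pc1 : TaskPC1.{u} := by
  intro G _ _ _ _ hps
  let _ : UniformSpace G := IsTopologicalAddGroup.rightUniformSpace G
  have : IsUniformAddGroup G := isUniformAddGroup_of_addCommGroup
  have : CompletelyRegularSpace G := UniformSpace.toCompletelyRegularSpace
  have htb : TotallyBounded (univ : Set G) := by
    rw [totallyBounded_iff_subset_finite_iUnion_nhds_zero]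
    intro U hU
    obtain ⟨t, ht, h⟩ := exists_cover hps U hU
    refine ⟨t, ht, fun x _ => ?_⟩
    obtain ⟨y, hy, hxy⟩ := h x
    refine mem_iUnion₂.2 ⟨y, hy, ?_⟩
    rw [Set.mem_vadd_set]
    exact ⟨x - y, hxy, by simp⟩
  have hcomp : CompactSpace (UniformSpace.Completion G) := by
    refine ⟨isCompact_iff_totallyBounded_isComplete.2 ⟨?_, completeSpace_iff_isComplete_univ.1
      inferInstance⟩⟩
    have h1 := (htb.image (UniformSpace.Completion.uniformContinuous_coe G)).closure
    rwa [image_univ, (UniformSpace.Completion.denseRange_coe (α := G)).closure_range] at h1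
  refine ⟨UniformSpace.Completion G, inferInstance, inferInstance, inferInstance, hcomp,
    inferInstance, UniformSpace.Completion.toCompl, ?_, ?_⟩
  · exact UniformSpace.Completion.coe_injective G
  · intro S hS hSne
    obtain ⟨s, hs⟩ := hSne
    obtain ⟨f, hfo, rfl⟩ := isGδ_iff_eq_iInter_nat.1 hS
    have hsf : ∀ n, s ∈ f n := fun n => mem_iInter.1 hs n
    have hnext : ∀ U : {U : Set (UniformSpace.Completion G) // IsOpen U ∧ s ∈ U},
        ∃ V : {U : Set (UniformSpace.Completion G) // IsOpen U ∧ s ∈ U},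
          closure (V : Set (UniformSpace.Completion G)) ⊆ U := by
      rintro ⟨U, hU, hsU⟩
      obtain ⟨t, ht, htc, htU⟩ := exists_mem_nhds_isClosed_subset (hU.mem_nhds hsU)
      exact ⟨⟨interior t, isOpen_interior, mem_interior_iff_mem_nhds.2 ht⟩,
        (closure_minimal interior_subset htc).trans htU⟩
    choose next hnext using hnext
    let W : ℕ → {U : Set (UniformSpace.Completion G) // IsOpen U ∧ s ∈ U} := fun n =>
      Nat.rec ⟨f 0, hfo 0, hsf 0⟩
        (fun n U => next ⟨U.1 ∩ f (n + 1), U.2.1.inter (hfo _), U.2.2, hsf _⟩) n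
    have hW0 : (W 0).1 = f 0 := rfl
    have hWs : ∀ n, closure (W (n + 1)).1 ⊆ (W n).1 ∩ f (n + 1) := fun n =>
      hnext ⟨(W n).1 ∩ f (n + 1), (W n).2.1.inter (hfo _), (W n).2.2, hsf _⟩
    set O : ℕ → Set G := fun n => (fun x : G => (x : UniformSpace.Completion G)) ⁻¹' (W n).1
      with hO
    have hOo : ∀ n, IsOpen (O n) := fun n =>
      (W n).2.1.preimage (UniformSpace.Completion.continuous_coe G)
    have hOne : ∀ n, (O n).Nonempty := by
      intro n
      obtain ⟨x, hx⟩ := (UniformSpace.Completion.denseRange_coe (α := G)).exists_mem_open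
        (W n).2.1 ⟨s, (W n).2.2⟩
      exact ⟨x, hx⟩
    have hOa : Antitone O := by
      refine antitone_nat_of_succ_le fun n x hx => ?_
      exact (hWs n (subset_closure hx)).1
    obtain ⟨g, hg⟩ := inter_closure hps O hOo hOne hOa
    have hgW : ∀ n, (g : UniformSpace.Completion G) ∈ closure (W n).1 := fun n =>
      map_mem_closure (UniformSpace.Completion.continuous_coe G) (hg n) (fun x hx => hx)
    refine ⟨(g : UniformSpace.Completion G), mem_iInter.2 ?_, ⟨g, rfl⟩⟩
    intro n
    cases n with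
    | zero => exact (hWs 0 (hgW 1)).1
    | succ n => exact (hWs n (hgW (n + 1))).2

end Pool.Agent.H990R4.PC1
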